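import Pool.Agent.Work.MP_11a08a_al.MV.RepB

/-!
The rank bound deduced from the bound for generalised matching vector families.
-/

set_option autoImplicit false

open Finset Module
open scoped InnerProductSpace Matrix

namespace Pool.Agent.Work.MP_11a08a_al.MV

theorem unitary_bound2 {G E : Type} [Group G] [Fintype G] [NormedAddCommGroup E]
    [InnerProductSpace ℂ E] [FiniteDimensional ℂ E] [DecidableEq (Submodule ℂ E)]
    {q : ℕ} (hq : 0 < q) {ρ : Representation ℂ G E} (hρ : IsUni ρ) {A : Subgroup G}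
    (hA : A.Normal) (hc : ∀ a ∈ A, ∀ b ∈ A, a * b = b * a) (h : Fin q → G)
    (hh : ∀ l, h l ∈ up2 A hA) (B : ℕ)
    (hB : ∀ (α : Fin q → ℂ) (W : Submodule ℂ E), MinGood ρ W → A ≤ scal ρ W →
      (∃ w ∈ W, ∑ i, α i • ρ (h i) w ≠ 0) → ∀ Y : Finset (Submodule ℂ E),
      Y ⊆ (univ.image fun g => W.map (ρ g)) →
      (∀ g, (∃ w ∈ W.map (ρ g), ∑ i, α i • ρ (h i) w ≠ 0) → W.map (ρ g) ∈ Y) →
      (univ.image fun g => W.map (ρ g)).card ≤ Y.card * B)
    (α : Fin q → ℂ) (n : ℕ) :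
    ∀ U : Submodule ℂ E, finrank ℂ U = n → (∀ g, ∀ v ∈ U, ρ g v ∈ U) →
      (∀ v ∈ U, v ≠ 0 → ∃ g, comb ρ α h (ρ g v) ≠ 0) →
      n ≤ B * (4 * q ^ 3) * finrank ℂ (U.map (comb ρ α h)) := by
  classical
  induction n using Nat.strong_induction_on with
  | _ n ih =>
  intro U hUn hinv hnz
  by_cases hU : U = ⊥
  · rw [← hUn, hU]; simp
  obtain ⟨W, hWU, hW, hAW⟩ := exists_block hρ hA hc U hU hinv
  set X : Finset (Submodule ℂ E) := univ.image fun g => W.map (ρ g) with hX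
  set U' : Submodule ℂ E := X.sup id with hU'
  have hle : ∀ g, W.map (ρ g) ≤ U' := fun g =>
    le_sup (f := id) (mem_image_of_mem (fun g => W.map (ρ g)) (mem_univ g))
  have hU'U : U' ≤ U := by
    refine Finset.sup_le fun x hx => ?_
    obtain ⟨g, -, rfl⟩ := mem_image.mp hx
    rintro _ ⟨w, hw, rfl⟩
    exact hinv g w (hWU hw)
  have hinv' : ∀ g, ∀ v ∈ U', ρ g v ∈ U' := by
    intro g
    have : U' ≤ U'.comap (ρ g) := by
      refine Finset.sup_le fun x hx => ?_
      obtain ⟨g', -, rfl⟩ := mem_image.mp hx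
      rw [← Submodule.map_le_iff_le_comap, id, map_map_rep]
      exact hle _
    exact fun v hv => this hv
  have hdim : ∀ x ∈ X, finrank ℂ x = finrank ℂ W := by
    intro x hx
    obtain ⟨g, -, rfl⟩ := mem_image.mp hx
    exact (Submodule.equivMapOfInjective _ (rep_inj ρ g) W).finrank_eq.symm
  set Y := X.filter (fun x => ∃ w ∈ x, ∑ i, α i • ρ (h i) w ≠ 0) with hY
  have h1 : X.card ≤ Y.card * B := by
    obtain ⟨w, hw, hw0⟩ := (Submodule.ne_bot_iff W).mp hW.1.1
    obtain ⟨g, hg⟩ := hnz w (hWU hw) hw0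
    have eX : (univ.image fun g' => (W.map (ρ g)).map (ρ g')) = X := by
      ext x
      simp only [hX, mem_image, mem_univ, true_and, map_map_rep]
      constructor
      · rintro ⟨a, rfl⟩
        exact ⟨_, rfl⟩
      · rintro ⟨a, rfl⟩
        exact ⟨a * g⁻¹, by rw [inv_mul_cancel_right]⟩
    rw [← eX]
    refine hB α (W.map (ρ g)) (hW.map hρ g) (scal_map hA hAW g)
      ⟨ρ g w, ⟨w, hw, rfl⟩, by rwa [comb_apply] at hg⟩ Y ?_ fun g' hg' => mem_filter.mpr ⟨?_, hg'⟩
    · rw [eX]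
      exact filter_subset _ _
    · rw [← eX]
      exact mem_image_of_mem (fun g' => (W.map (ρ g)).map (ρ g')) (mem_univ g')
  have h2 : Y.card * finrank ℂ W ≤ 4 * q ^ 3 * finrank ℂ (U'.map (comb ρ α h)) := by
    refine rank_of_blocks (G := up2 A hA) hq (ρ := ρ.comp (up2 A hA).subtype)
      (fun g v w => hρ g v w) le_rfl α (fun l => ⟨h l, hh l⟩) Y _
      (fun x hx => hdim x (mem_filter.mp hx).1) (fun x hx => (mem_filter.mp hx).2) ?_ ?_ _ ?_
    · intro x hx t
      obtain ⟨g, -, rfl⟩ := mem_image.mp (mem_filter.mp hx).1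
      exact dich hρ (hW.map hρ g) hA (scal_map hA hAW g) _ t.2
    · intro x hx x' hx' hne
      obtain ⟨g, -, rfl⟩ := mem_image.mp (mem_filter.mp hx).1
      obtain ⟨g', -, rfl⟩ := mem_image.mp (mem_filter.mp hx').1
      rintro _ ⟨v, hv, rfl⟩ _ ⟨w, hw, rfl⟩
      rw [hρ.adj]
      refine (hW.1.2 (g⁻¹ * g')).resolve_left (fun he => hne ?_) v hv w hw
      conv_lhs => rw [← he, map_map_rep, mul_inv_cancel_left]
    · intro x hx w hw
      obtain ⟨g, -, rfl⟩ := mem_image.mp (mem_filter.mp hx).1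
      exact ⟨w, hle g hw, comb_apply ρ α h w⟩
  have h3 : finrank ℂ U' ≤ X.card * finrank ℂ W := by
    refine (finrank_sup_le X id).trans (le_of_eq ?_)
    rw [← smul_eq_mul, ← sum_const]
    exact sum_congr rfl hdim
  have h4 : finrank ℂ U' ≤ B * (4 * q ^ 3) * finrank ℂ (U'.map (comb ρ α h)) :=
    calc finrank ℂ U' ≤ Y.card * B * finrank ℂ W := h3.trans (Nat.mul_le_mul_right _ h1)
      _ = B * (Y.card * finrank ℂ W) := by ring
      _ ≤ B * (4 * q ^ 3 * finrank ℂ (U'.map (comb ρ α h))) := Nat.mul_le_mul_left _ h2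
      _ = _ := by ring
  have hpos : 1 ≤ finrank ℂ U' := by
    refine Submodule.one_le_finrank_iff.mpr fun h0 => hW.1.1 ?_
    have := hle 1
    rwa [map_one_rep, h0, le_bot_iff] at this
  have hsum := Submodule.finrank_add_inf_finrank_orthogonal hU'U
  have hinvo : ∀ g, ∀ v ∈ U'ᗮ, ρ g v ∈ U'ᗮ := by
    intro g v hv u hu
    have e : u = ρ g (ρ g⁻¹ u) := by rw [rep_apply_apply, mul_inv_cancel, map_one]; rfl
    rw [e, hρ]
    exact hv _ (hinv' _ u hu)
  have h5 := ih (finrank ℂ (U'ᗮ ⊓ U : Submodule ℂ E)) (by omega) (U'ᗮ ⊓ U) rfl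
    (fun g v hv => ⟨hinvo g v hv.1, hinv g v hv.2⟩) (fun v hv => hnz v hv.2)
  have hmap : ∀ V : Submodule ℂ E, (∀ g, ∀ v ∈ V, ρ g v ∈ V) → V.map (comb ρ α h) ≤ V := by
    rintro V hV _ ⟨v, hv, rfl⟩
    rw [comb_apply]
    exact V.sum_mem fun i _ => V.smul_mem _ (hV _ v hv)
  have h6 : finrank ℂ (U'.map (comb ρ α h)) + finrank ℂ ((U'ᗮ ⊓ U).map (comb ρ α h)) ≤
      finrank ℂ (U.map (comb ρ α h)) := by
    rw [← Submodule.finrank_sup_add_finrank_inf_eq]
    have e1 : U'.map (comb ρ α h) ⊓ (U'ᗮ ⊓ U).map (comb ρ α h) = ⊥ := by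
      rw [eq_bot_iff, ← U'.inf_orthogonal_eq_bot]
      exact inf_le_inf (hmap U' hinv')
        ((Submodule.map_mono inf_le_left).trans (hmap U'ᗮ hinvo))
    rw [e1, finrank_bot, add_zero]
    exact Submodule.finrank_mono
      (sup_le (Submodule.map_mono hU'U) (Submodule.map_mono inf_le_right))
  calc n = finrank ℂ U' + finrank ℂ (U'ᗮ ⊓ U : Submodule ℂ E) := by omega
    _ ≤ B * (4 * q ^ 3) * finrank ℂ (U'.map (comb ρ α h)) +
        B * (4 * q ^ 3) * finrank ℂ ((U'ᗮ ⊓ U).map (comb ρ α h)) := add_le_add h4 h5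
    _ ≤ _ := by rw [← mul_add]; exact Nat.mul_le_mul_left _ h6

/-- The rank bound with constant `K` for all unitary representations. -/
def UB {G : Type} [Group G] {q : ℕ} (h : Fin q → G) (K : ℕ) : Prop :=
  ∀ (E : Type) [NormedAddCommGroup E] [InnerProductSpace ℂ E] [FiniteDimensional ℂ E]
    (ρ : Representation ℂ G E), IsUni ρ → ∀ (α : Fin q → ℂ) (n : ℕ) (U : Submodule ℂ E),
    finrank ℂ U = n → (∀ g, ∀ v ∈ U, ρ g v ∈ U) →
      (∀ v ∈ U, v ≠ 0 → ∃ g, comb ρ α h (ρ g v) ≠ 0) →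
      n ≤ K * finrank ℂ (U.map (comb ρ α h))

section Transfer
variable {G : Type} [Group G] [Fintype G]

theorem complex_bound2 {q : ℕ} {K : ℕ} {n : ℕ}
    (ρ : Representation ℂ G (Fin n → ℂ)) (α : Fin q → ℂ) (h : Fin q → G) (hU : UB h K)
    (hnz : ∀ v, v ≠ 0 → ∃ g, (∑ i, α i • ρ (h i)) (ρ g v) ≠ 0) :
    n ≤ K *
      finrank ℂ (LinearMap.range (∑ i, α i • ρ (h i))) := by
  let ι : (Fin n → ℂ) →ₗ[ℂ] EuclideanSpace ℂ (G × Fin n) :=
    { toFun := fun v => WithLp.toLp 2 fun p => ρ p.1⁻¹ v p.2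
      map_add' := fun v w => by ext p; simp
      map_smul' := fun c v => by ext p; simp }
  have hinj : Function.Injective ι := by
    rw [injective_iff_map_eq_zero]
    intro v hv
    ext i
    have := congrArg (fun f : EuclideanSpace ℂ (G × Fin n) => f (1, i)) hv
    simpa [ι] using this
  have heq : ∀ g v, regRep G n g (ι v) = ι (ρ g v) := by
    intro g v
    ext p
    simp [ι, regRep]
  have hD : ∀ v, comb (regRep G n) α h (ι v) = ι ((∑ i, α i • ρ (h i)) v) := by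
    intro v
    rw [comb_apply, LinearMap.sum_apply, map_sum]
    simp only [heq, LinearMap.smul_apply, map_smul]
  have := hU _ _ (regRep_uni n) α n (LinearMap.range ι)
    (by rw [LinearMap.finrank_range_of_inj hinj, finrank_fin_fun])
    (by rintro g _ ⟨v, rfl⟩; exact ⟨_, (heq g v).symm⟩)
    (by
      rintro _ ⟨v, rfl⟩ hv
      obtain ⟨g, hg⟩ := hnz v (fun h0 => hv (by rw [h0, map_zero]))
      refine ⟨g, fun h0 => hg (hinj ?_)⟩
      rw [← hD, ← heq, h0, map_zero])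
  have e : (LinearMap.range ι).map (comb (regRep G n) α h) =
      (LinearMap.range (∑ i, α i • ρ (h i))).map ι := by
    rw [← LinearMap.range_comp, ← LinearMap.range_comp]
    congr 1
    exact LinearMap.ext hD
  rw [e, ← (Submodule.equivMapOfInjective _ hinj _).finrank_eq] at this
  exact this

theorem matrix_bound2 {q : ℕ} {K : ℕ} {n r : ℕ}
    (M B : G → Matrix (Fin n) (Fin n) ℂ) (X : Matrix (Fin n) (Fin r) ℂ)
    (Y : Matrix (Fin r) (Fin n) ℂ) (α : Fin q → ℂ) (h : Fin q → G) (hU : UB h K) (h1 : M 1 = 1)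
    (h2 : ∀ a b, M (a * b) = M a * M b) (h3 : ∑ i, α i • M (h i) = X * Y)
    (h4 : ∑ g, B g * (X * Y) * M g = 1) :
    n ≤ K * r := by
  let ρ : Representation ℂ G (Fin n → ℂ) :=
    { toFun := fun g => Matrix.toLin' (M g)
      map_one' := by rw [h1, Matrix.toLin'_one]; rfl
      map_mul' := fun a b => by rw [h2, Matrix.toLin'_mul]; rfl }
  have hD : ∑ i, α i • ρ (h i) = Matrix.toLin' (X * Y) := by
    rw [← h3, map_sum]
    simp only [map_smul]
    rfl
  refine (complex_bound2 ρ α h hU fun v hv => ?_).trans (Nat.mul_le_mul_left _ ?_)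
  · by_contra hc
    push Not at hc
    apply hv
    rw [← Matrix.one_mulVec v, ← h4, Matrix.sum_mulVec]
    refine sum_eq_zero fun g _ => ?_
    have := hc g
    rw [hD] at this
    change (X * Y) *ᵥ (M g *ᵥ v) = 0 at this
    rw [← Matrix.mulVec_mulVec, ← Matrix.mulVec_mulVec, this, Matrix.mulVec_zero]
  · rw [hD, Matrix.toLin'_mul]
    refine (Submodule.finrank_mono (LinearMap.range_comp_le_range _ _)).trans ?_
    exact (LinearMap.finrank_range_le _).trans (by rw [finrank_fin_fun])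

theorem matrix_bound3 {F : Type} [Field F] [CharZero F] {q : ℕ} {K : ℕ} {n r : ℕ}
    (M B : G → Matrix (Fin n) (Fin n) F) (X : Matrix (Fin n) (Fin r) F)
    (Y : Matrix (Fin r) (Fin n) F) (α : Fin q → F) (h : Fin q → G) (hU : UB h K) (h1 : M 1 = 1)
    (h2 : ∀ a b, M (a * b) = M a * M b) (h3 : ∑ i, α i • M (h i) = X * Y)
    (h4 : ∑ g, B g * (X * Y) * M g = 1) :
    n ≤ K * r := by
  obtain ⟨S, φ, hS⟩ := exists_specialization
    (Set.range (fun p : G × Fin n × Fin n => M p.1 p.2.1 p.2.2) ∪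
      (Set.range (fun p : G × Fin n × Fin n => B p.1 p.2.1 p.2.2) ∪
      (Set.range (fun p : Fin n × Fin r => X p.1 p.2) ∪
      (Set.range (fun p : Fin r × Fin n => Y p.1 p.2) ∪ Set.range α))))
    ((Set.finite_range _).union ((Set.finite_range _).union ((Set.finite_range _).union
      ((Set.finite_range _).union (Set.finite_range _)))))
  let M' : G → Matrix (Fin n) (Fin n) S := fun g => Matrix.of fun i j =>
    ⟨M g i j, hS (Or.inl ⟨(g, i, j), rfl⟩)⟩
  let B' : G → Matrix (Fin n) (Fin n) S := fun g => Matrix.of fun i j =>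
    ⟨B g i j, hS (Or.inr (Or.inl ⟨(g, i, j), rfl⟩))⟩
  let X' : Matrix (Fin n) (Fin r) S := Matrix.of fun i j =>
    ⟨X i j, hS (Or.inr (Or.inr (Or.inl ⟨(i, j), rfl⟩)))⟩
  let Y' : Matrix (Fin r) (Fin n) S := Matrix.of fun i j =>
    ⟨Y i j, hS (Or.inr (Or.inr (Or.inr (Or.inl ⟨(i, j), rfl⟩))))⟩
  let α' : Fin q → S := fun i => ⟨α i, hS (Or.inr (Or.inr (Or.inr (Or.inr ⟨i, rfl⟩))))⟩
  have hM : ∀ g, (M' g).map S.subtype = M g := fun _ => rfl
  have hB : ∀ g, (B' g).map S.subtype = B g := fun _ => rfl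
  have hX : X'.map S.subtype = X := rfl
  have hY : Y'.map S.subtype = Y := rfl
  have hinj : Function.Injective
      (fun A : Matrix (Fin n) (Fin n) S => A.map S.subtype) :=
    Matrix.map_injective S.subtype_injective
  have hsum1 : ∀ {K : Type} [CommRing K] (f : S →+* K),
      (∑ i, α' i • M' (h i)).map f = ∑ i, f (α' i) • (M' (h i)).map f := by
    intro K _ f
    ext i j
    simp [Matrix.sum_apply]
  have hsum2 : ∀ {K : Type} [CommRing K] (f : S →+* K),
      (∑ g, B' g * (X' * Y') * M' g).map f =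
        ∑ g, (B' g).map f * (X'.map f * Y'.map f) * (M' g).map f := by
    intro K _ f
    simp_rw [← Matrix.map_mul]
    ext i j
    simp only [Matrix.sum_apply, Matrix.map_apply, map_sum]
  have h1' : M' 1 = 1 := hinj (by
    simp only [hM, h1]
    rw [Matrix.map_one _ (map_zero _) (map_one _)])
  have h2' : ∀ a b, M' (a * b) = M' a * M' b := fun a b => hinj (by
    simp only [Matrix.map_mul, hM, h2])
  have h3' : ∑ i, α' i • M' (h i) = X' * Y' := hinj (by
    simp only [hsum1, Matrix.map_mul, hM, hX, hY]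
    exact h3)
  have h4' : ∑ g, B' g * (X' * Y') * M' g = 1 := hinj (by
    simp only [hsum2, hM, hB, hX, hY, h4]
    rw [Matrix.map_one _ (map_zero _) (map_one _)])
  refine matrix_bound2 (fun g => (M' g).map φ) (fun g => (B' g).map φ) (X'.map φ)
    (Y'.map φ) (fun i => φ (α' i)) h hU ?_ (fun a b => ?_) ?_ ?_
  · rw [h1', Matrix.map_one _ (map_zero _) (map_one _)]
  · rw [h2', Matrix.map_mul]
  · rw [← hsum1, h3', Matrix.map_mul]
  · rw [← hsum2, h4', Matrix.map_one _ (map_zero _) (map_one _)]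

theorem field_bound2 {F : Type} [Field F] [CharZero F] {q : ℕ} {K : ℕ}
    {n : ℕ} (ρ : Representation F G (Fin n → F))
    (hirr : ρ.IsIrreducible) (α : Fin q → F) (h : Fin q → G) (hU : UB h K)
    (hne : ∑ i, α i • ρ (h i) ≠ 0) :
    n ≤ K *
      finrank F (LinearMap.range (∑ i, α i • ρ (h i))) := by
  classical
  set D := ∑ i, α i • ρ (h i) with hD
  let Φ : (Fin n → F) →ₗ[F] (G → Fin n → F) := LinearMap.pi fun g => D ∘ₗ ρ g
  have hker : LinearMap.ker Φ = ⊥ := by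
    let Z : Subrepresentation ρ :=
      { toSubmodule := LinearMap.ker Φ
        apply_mem_toSubmodule := fun g v hv => by
          rw [LinearMap.mem_ker] at hv ⊢
          ext1 g'
          have := congrFun hv (g' * g)
          simpa [Φ] using this }
    rcases hirr.eq_bot_or_eq_top Z with h0 | h0
    · exact congrArg Subrepresentation.toSubmodule h0
    · exfalso
      apply hne
      have h1 : LinearMap.ker Φ = ⊤ := congrArg Subrepresentation.toSubmodule h0
      rw [LinearMap.ker_eq_top] at h1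
      have : ∀ w, D w = 0 := fun w => by
        have := congrFun (LinearMap.congr_fun h1 w) 1
        simpa [Φ] using this
      exact LinearMap.ext this
  obtain ⟨Ψ, hΨ⟩ := Φ.exists_leftInverse_of_injective hker
  let b := Module.finBasis F (LinearMap.range D)
  refine matrix_bound3 (fun g => LinearMap.toMatrix' (ρ g))
    (fun g => LinearMap.toMatrix' (Ψ ∘ₗ LinearMap.single F (fun _ : G => Fin n → F) g))
    (LinearMap.toMatrix' ((LinearMap.range D).subtype ∘ₗ b.equivFun.symm.toLinearMap))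
    (LinearMap.toMatrix' (b.equivFun.toLinearMap ∘ₗ D.rangeRestrict)) α h hU ?_ (fun a b => ?_) ?_ ?_
  · rw [map_one, Module.End.one_eq_id, LinearMap.toMatrix'_id]
  · rw [map_mul, LinearMap.toMatrix'_mul]
  · rw [← LinearMap.toMatrix'_comp]
    simp_rw [← map_smul]
    rw [← map_sum, ← hD]
    congr 1
    refine LinearMap.ext fun v => ?_
    simp
  · simp_rw [← LinearMap.toMatrix'_comp]
    rw [← map_sum, ← LinearMap.toMatrix'_id, ← hΨ]
    congr 1
    refine LinearMap.ext fun v => ?_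
    rw [LinearMap.sum_apply, LinearMap.comp_apply]
    simp only [LinearMap.comp_apply, ← map_sum]
    congr 1
    ext1 g
    simp [Φ, Finset.sum_apply]

end Transfer

theorem numeric2 (ε : ℝ) (hε : 0 < ε) (c : ℝ) (hc : 0 < c) (L : ℕ) : ∃ N : ℕ,
    ∀ n > N, ∀ g r : ℕ, 0 < g → (g : ℝ) ^ ε ≤ n →
      n ≤ 2 * ⌈c * ((g * g : ℕ) : ℝ) ^ (ε ^ 2 / 4)⌉₊ * L * r → (n : ℝ) ^ (1 - ε) ≤ r := by
  refine ⟨⌈(2 * (c + 1) * L : ℝ) ^ (2 / ε)⌉₊, ?_⟩
  intro n hn g r hg hgn hr
  have hn0 : (0 : ℝ) < n := by exact_mod_cast (lt_of_le_of_lt (Nat.zero_le _) hn)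
  have hg1 : (1 : ℝ) ≤ g := by exact_mod_cast hg
  have h1 : (2 * (c + 1) * L : ℝ) ≤ (n : ℝ) ^ (ε / 2) := by
    have e : (2 * (c + 1) * L : ℝ) = ((2 * (c + 1) * L : ℝ) ^ (2 / ε)) ^ (ε / 2) := by
      rw [← Real.rpow_mul (by positivity)]
      have : 2 / ε * (ε / 2) = 1 := by field_simp
      rw [this, Real.rpow_one]
    rw [e]
    refine Real.rpow_le_rpow (by positivity) ?_ (by positivity)
    exact (Nat.le_ceil _).trans (by exact_mod_cast hn.le)
  have h2 : ((g * g : ℕ) : ℝ) ^ (ε ^ 2 / 4) ≤ (n : ℝ) ^ (ε / 2) := by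
    calc ((g * g : ℕ) : ℝ) ^ (ε ^ 2 / 4) = ((g : ℝ) ^ ε) ^ (ε / 2) := by
          rw [Nat.cast_mul, ← sq, ← Real.rpow_natCast, ← Real.rpow_mul (by positivity),
            ← Real.rpow_mul (by positivity)]
          congr 1
          push_cast
          ring
      _ ≤ _ := Real.rpow_le_rpow (by positivity) hgn (by positivity)
  have h0 : (1 : ℝ) ≤ ((g * g : ℕ) : ℝ) ^ (ε ^ 2 / 4) := by
    refine Real.one_le_rpow ?_ (by positivity)
    rw [Nat.cast_mul]
    nlinarith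
  have h4 : (⌈c * ((g * g : ℕ) : ℝ) ^ (ε ^ 2 / 4)⌉₊ : ℝ) ≤ (c + 1) * (n : ℝ) ^ (ε / 2) := by
    refine (Nat.ceil_lt_add_one (by positivity)).le.trans ?_
    nlinarith
  have h3 : (n : ℝ) ≤ (n : ℝ) ^ ε * r := by
    calc (n : ℝ) ≤ 2 * (⌈c * ((g * g : ℕ) : ℝ) ^ (ε ^ 2 / 4)⌉₊ : ℝ) * L * r := by
          exact_mod_cast hr
      _ ≤ 2 * ((c + 1) * (n : ℝ) ^ (ε / 2)) * L * r := by gcongr
      _ = (2 * (c + 1) * L) * (n : ℝ) ^ (ε / 2) * r := by ring
      _ ≤ (n : ℝ) ^ (ε / 2) * (n : ℝ) ^ (ε / 2) * r := by gcongr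
      _ = _ := by rw [← Real.rpow_add hn0, add_halves]
  rw [Real.rpow_sub hn0, Real.rpow_one, div_le_iff₀ (by positivity), mul_comm]
  exact h3

theorem final_of_star (hS : StmtStar) : StmtFinal := by
  classical
  intro ε hε q
  rcases Nat.eq_zero_or_pos q with rfl | hq
  · exact ⟨0, fun n _ F _ _ G _ _ A _ _ ρ _ _ h α _ hne => absurd (by simp) hne⟩
  obtain ⟨c, hc, H⟩ := orbit_bound hS q hq (ε ^ 2 / 4) (by positivity)
  obtain ⟨N, hN⟩ := numeric2 ε hε c hc (4 * q ^ 3)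
  refine ⟨N, fun n hn F _ _ G _ _ A hA hAc ρ hirr hg h α hh hne => ?_⟩
  have := Fintype.ofFinite G
  let h' : Fin q → G := fun l => (h ⟨0, hq⟩)⁻¹ * h l
  have hh' : ∀ l, h' l ∈ up2 A hA := fun l x y => hh ⟨0, hq⟩ l x y
  have hU : UB h' (2 * ⌈c * ((Nat.card G * Nat.card G : ℕ) : ℝ) ^ (ε ^ 2 / 4)⌉₊ * (4 * q ^ 3)) :=
    fun E _ _ _ σ hσ β m => unitary_bound2 hq hσ hA (fun a ha b hb => setLike_mul_comm ha hb) h' hh'
      _ (H G E σ hσ A hA h' hh') β m
  have e : ∑ l, α l • ρ (h l) = ρ (h ⟨0, hq⟩) ∘ₗ ∑ l, α l • ρ (h' l) := by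
    rw [← Module.End.mul_eq_comp, mul_sum]
    refine sum_congr rfl fun l _ => ?_
    rw [mul_smul_comm, ← map_mul, mul_inv_cancel_left]
  have hinj : Function.Injective (ρ (h ⟨0, hq⟩)) := by
    intro v w hvw
    have := congrArg (ρ (h ⟨0, hq⟩)⁻¹) hvw
    rwa [← Module.End.mul_apply, ← Module.End.mul_apply, ← map_mul, inv_mul_cancel,
      map_one] at this
  have hne' : ∑ l, α l • ρ (h' l) ≠ 0 := fun h0 => hne (by rw [e, h0, LinearMap.comp_zero])
  have h1 := field_bound2 ρ hirr α h' hU hne'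
  rw [e, LinearMap.range_comp, ← (Submodule.equivMapOfInjective _ hinj _).finrank_eq]
  exact hN n hn _ _ Nat.card_pos hg h1

end Pool.Agent.Work.MP_11a08a_al.MV
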