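import Pool.Agent.Work.MP_11a08a_al.MV.RepA

/-!
The orbit bound deduced from the bound for generalised matching vector families.
-/

set_option autoImplicit false

open Finset Module
open scoped InnerProductSpace

namespace Pool.Agent.Work.MP_11a08a_al.MV

section Rep
variable {G E : Type} [Group G] [NormedAddCommGroup E] [InnerProductSpace ℂ E]

theorem sz_bound [Finite G] [NeZero (Nat.card G)] {ρ : Representation ℂ G E} {W : Submodule ℂ E}
    (hW : W ≠ ⊥) {κ : Type} [Fintype κ] [DecidableEq κ] (g : κ → G) (b : G)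
    (a : ZMod (Nat.card G)) (I : Finset κ)
    (hI : ∀ i ∈ I, ∀ j ∈ I, ((g i)⁻¹ * g j)⁻¹ * b * ((g i)⁻¹ * g j) ∈ scal ρ W) :
    sz (fun i j => dlg (Nat.card G) (phi ρ W (((g i)⁻¹ * g j)⁻¹ * b * ((g i)⁻¹ * g j))) - a) I I
      ≤ Nat.card G * Nat.card G := by
  classical
  let Ψ : G × ZMod (Nat.card G) → κ → ZMod (Nat.card G) := fun p j =>
    if j ∈ I then dlg (Nat.card G) (phi ρ W ((g j)⁻¹ * p.1 * g j)) - p.2 else 0
  let K : Set (G × ZMod (Nat.card G)) := {p | ∀ j ∈ I, (g j)⁻¹ * p.1 * g j ∈ scal ρ W}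
  have hadd : ∀ p ∈ K, ∀ p' ∈ K, (p.1 * p'.1, p.2 + p'.2) ∈ K ∧
      Ψ (p.1 * p'.1, p.2 + p'.2) = Ψ p + Ψ p' := by
    intro p hp p' hp'
    have e : ∀ j, (g j)⁻¹ * (p.1 * p'.1) * g j
        = ((g j)⁻¹ * p.1 * g j) * ((g j)⁻¹ * p'.1 * g j) := fun j => by group
    refine ⟨fun j hj => ?_, ?_⟩
    · change (g j)⁻¹ * (p.1 * p'.1) * g j ∈ scal ρ W
      rw [e]
      exact (scal ρ W).mul_mem (hp j hj) (hp' j hj)
    · funext j
      simp only [Ψ, Pi.add_apply]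
      split_ifs with hj
      · rw [e, phi_mul hW (hp j hj) (hp' j hj),
          dlg_mul (phi_pow hW (hp j hj)) (phi_pow hW (hp' j hj))]
        ring
      · simp
  have hone : ((1 : G), (0 : ZMod (Nat.card G))) ∈ K ∧ Ψ (1, 0) = 0 := by
    have h1 : ((1 : G), (0 : ZMod (Nat.card G))) ∈ K := fun j _ => by
      change (g j)⁻¹ * 1 * g j ∈ scal ρ W
      rw [mul_one, inv_mul_cancel]
      exact (scal ρ W).one_mem
    refine ⟨h1, ?_⟩
    have h2 := (hadd _ h1 _ h1).2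
    simp only [mul_one, add_zero] at h2
    exact left_eq_add.mp h2
  let T : AddSubgroup (κ → ZMod (Nat.card G)) :=
    { carrier := Ψ '' K
      zero_mem' := ⟨_, hone.1, hone.2⟩
      add_mem' := by
        rintro _ _ ⟨p, hp, rfl⟩ ⟨p', hp', rfl⟩
        exact ⟨_, (hadd p hp p' hp').1, (hadd p hp p' hp').2⟩
      neg_mem' := by
        rintro _ ⟨p, hp, rfl⟩
        have h1 : (p.1⁻¹, -p.2) ∈ K := fun j hj => by
          change (g j)⁻¹ * p.1⁻¹ * g j ∈ scal ρ W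
          have e : (g j)⁻¹ * p.1⁻¹ * g j = ((g j)⁻¹ * p.1 * g j)⁻¹ := by group
          rw [e]
          exact (scal ρ W).inv_mem (hp j hj)
        refine ⟨_, h1, ?_⟩
        have h2 := (hadd p hp _ h1).2
        simp only [mul_inv_cancel, add_neg_cancel] at h2
        rw [hone.2] at h2
        exact eq_neg_of_add_eq_zero_right h2.symm }
  have hle : rowG (fun i j => dlg (Nat.card G)
      (phi ρ W (((g i)⁻¹ * g j)⁻¹ * b * ((g i)⁻¹ * g j))) - a) I I ≤ T := by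
    rw [rowG, AddSubgroup.closure_le]
    rintro _ ⟨i, hi, rfl⟩
    have e : ∀ j, (g j)⁻¹ * (g i * b * (g i)⁻¹) * g j
        = ((g i)⁻¹ * g j)⁻¹ * b * ((g i)⁻¹ * g j) := fun j => by group
    refine ⟨(g i * b * (g i)⁻¹, a), fun j hj => ?_, ?_⟩
    · change (g j)⁻¹ * (g i * b * (g i)⁻¹) * g j ∈ scal ρ W
      rw [e]
      exact hI i hi j hj
    · funext j
      simp only [Ψ, row, e]
  calc sz _ I I ≤ Nat.card T := AddSubgroup.card_le_of_le hle
    _ ≤ Nat.card (G × ZMod (Nat.card G)) := by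
        refine Nat.card_le_card_of_surjective
          (fun p => if hp : p ∈ K then (⟨Ψ p, p, hp, rfl⟩ : T) else 0) ?_
        rintro ⟨_, p, hp, rfl⟩
        exact ⟨p, dif_pos hp⟩
    _ = _ := by rw [Nat.card_prod, Nat.card_zmod]

variable [FiniteDimensional ℂ E]

theorem beta_zero [Finite G] {q : ℕ} (hq : 0 < q) {ρ : Representation ℂ G E} (hρ : IsUni ρ)
    {W : Submodule ℂ E} (hW : MinGood ρ W) {A : Subgroup G} (hA : A.Normal) (hAW : A ≤ scal ρ W)
    (α : Fin q → ℂ) (h : Fin q → G) (hh : ∀ l, h l ∈ up2 A hA)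
    (h0 : ∀ w ∈ W, ∑ i, α i • ρ (h i) w = 0) (j : Fin q) : beta ρ W α h j = 0 :=
  beta_eq_zero (G := up2 A hA) hq (ρ := ρ.comp (up2 A hA).subtype) (fun g v w => hρ g v w)
    hW.1.1 le_rfl (fun t => dich hρ hW hA hAW _ t.2) α (fun l => ⟨h l, hh l⟩) h0 j

end Rep

theorem kappa_bound (hS : StmtStar) (q : ℕ) (hq : 0 < q) (δ : ℝ) (hδ : 0 < δ) :
    ∃ c : ℝ, 0 < c ∧ ∀ (G E : Type) [Group G] [Finite G] [NormedAddCommGroup E]
      [InnerProductSpace ℂ E] [FiniteDimensional ℂ E] (ρ : Representation ℂ G E), IsUni ρ →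
      ∀ (A : Subgroup G) (hA : A.Normal) (h : Fin q → G), (∀ l, h l ∈ up2 A hA) →
      ∀ (α : Fin q → ℂ) (W : Submodule ℂ E), MinGood ρ W → A ≤ scal ρ W →
      (∃ w ∈ W, ∑ i, α i • ρ (h i) w ≠ 0) → ∀ κ : Finset G,
      (∀ i ∈ κ, ∀ j ∈ κ, i ≠ j → ∀ w ∈ W.map (ρ (i⁻¹ * j)), ∑ l, α l • ρ (h l) w = 0) →
      (κ.card : ℝ) ≤ c * ((Nat.card G * Nat.card G : ℕ) : ℝ) ^ δ := by
  classical
  obtain ⟨c, B, hc, hB, H⟩ := hS (q * (q * ratioBound q)) δ hδ
  refine ⟨c * B ^ (q * (q * ratioBound q)), by positivity, ?_⟩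
  intro G E _ _ _ _ _ ρ hρ A hA h hh α W hW hAW h0 κ hκ
  have hm : 0 < Nat.card G := Nat.card_pos
  have : NeZero (Nat.card G) := ⟨hm.ne'⟩
  obtain ⟨R, hRc, hR⟩ := vanish q (Nat.card G) hm α
  have : Nonempty (Fin q) := ⟨⟨0, hq⟩⟩
  obtain ⟨τ, hτ⟩ := exists_enum ((univ : Finset (Fin q)) ×ˢ (univ : Finset (Fin q)) ×ˢ R)
    (q * (q * ratioBound q)) (by
      rw [card_product, card_product, card_univ, Fintype.card_fin]
      gcongr)
  let b : Fin (q * (q * ratioBound q)) → G := fun t => (h (τ t).2.1)⁻¹ * h (τ t).1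
  have hb : ∀ t, b t ∈ up2 A hA := fun t => mul_mem (inv_mem (hh _)) (hh _)
  let z : Fin (q * (q * ratioBound q)) → ℂ := fun t => (τ t).2.2
  let va : Fin (q * (q * ratioBound q)) → Prop := fun t =>
    z t ^ Nat.card G = 1 ∧ ¬ Sc ρ W (b t) (z t)
  let D : Fin (q * (q * ratioBound q)) → κ → κ → Prop := fun t i j =>
    va t ∧ (i.1⁻¹ * j.1)⁻¹ * b t * (i.1⁻¹ * j.1) ∈ scal ρ W
  let rl : Fin (q * (q * ratioBound q)) → Finset κ → Prop := fun t I =>
    ∀ i ∈ I, ∀ j ∈ I, i.1⁻¹ * j.1 ∈ cls (hb t) (scal ρ W) hAW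
  have hsub : ∀ I I' : Finset κ, I' ⊆ I →
      univ.filter (fun t => rl t I) ⊆ univ.filter (fun t => rl t I') := by
    intro I I' hI t ht
    exact mem_filter.mpr ⟨mem_univ _, fun i hi j hj => (mem_filter.mp ht).2 i (hI hi) j (hI hj)⟩
  have key := H κ (Nat.card G) (Nat.card G * Nat.card G) (q * (q * ratioBound q))
    (fun t i j => dlg (Nat.card G) (phi ρ W ((i.1⁻¹ * j.1)⁻¹ * b t * (i.1⁻¹ * j.1))) -
      dlg (Nat.card G) (z t)) D
    (fun t => dlg (Nat.card G) (phi ρ W (b t)) - dlg (Nat.card G) (z t))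
    (fun I => (univ.filter fun t => rl t I).card) (Nat.mul_pos hm hm)
    (fun I => (card_le_univ _).trans (by rw [Fintype.card_fin]))
    (fun I I' hI _ => card_le_card (hsub I I' hI)) ?_ ?_ ?_ ?_
  · rw [Fintype.card_coe] at key
    exact key
  · intro t I η hη hI hd
    have hIpos : (0 : ℝ) < I.card := by exact_mod_cast hI.card_pos
    have hsum : ((I ×ˢ I).filter fun x => D t x.1 x.2).card =
        ∑ i ∈ I, (I.filter fun j => D t i j).card := by
      rw [card_filter, sum_product]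
      exact sum_congr rfl fun i _ => (card_filter _ _).symm
    have hd' : η * (I.card : ℝ) ^ 2 ≤ ∑ i ∈ I, ((I.filter fun j => D t i j).card : ℝ) := by
      rw [← Nat.cast_sum, ← hsum]
      refine hd.trans (le_of_eq ?_)
      congr
    obtain ⟨i, hi, hrow⟩ : ∃ i ∈ I, η * I.card ≤ ((I.filter fun j => D t i j).card : ℝ) := by
      refine exists_le_of_sum_le hI ?_
      rw [sum_const, nsmul_eq_mul]
      refine le_trans (le_of_eq ?_) hd'
      ring
    have hpos : 0 < (I.filter fun j => D t i j).card := by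
      have : (0 : ℝ) < ((I.filter fun j => D t i j).card : ℝ) :=
        lt_of_lt_of_le (by positivity) hrow
      exact_mod_cast this
    by_cases hrl : rl t I
    · obtain ⟨j, hj⟩ := card_pos.mp hpos
      obtain ⟨hjI, hv, hj'⟩ := mem_filter.mp hj
      have hbS : b t ∈ scal ρ W := (cls_iff (hb t) _ hAW (hrl i hi j hjI)).mp hj'
      refine ⟨I, Subset.refl _, ?_, Or.inl fun i' hi' j' hj'' =>
        ⟨hv, (cls_iff (hb t) _ hAW (hrl i' hi' j' hj'')).mpr hbS⟩⟩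
      have : ((I.filter fun j => D t i j).card : ℝ) ≤ I.card := by
        exact_mod_cast card_filter_le _ _
      linarith
    · refine ⟨I.filter fun j => D t i j, filter_subset _ _, ?_, Or.inr ?_⟩
      · have : (0 : ℝ) ≤ ((I.filter fun j => D t i j).card : ℝ) := Nat.cast_nonneg _
        linarith
      · refine card_lt_card ⟨hsub _ _ (filter_subset _ _), fun hcon => hrl ?_⟩
        refine (mem_filter.mp (hcon (mem_filter.mpr ⟨mem_univ t, fun j hj j' hj' => ?_⟩))).2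
        have := cls_of_two (hb t) _ hAW (mem_filter.mp hj).2.2 (mem_filter.mp hj').2.2
        have e : (i.1⁻¹ * j.1)⁻¹ * (i.1⁻¹ * j'.1) = j.1⁻¹ * j'.1 := by group
        rwa [e] at this
  · intro t I hI
    exact sz_bound hW.1.1 (fun i : κ => i.1) (b t) _ I fun i hi j hj => (hI i hi j hj).2
  · intro t i hD
    have e : (i.1⁻¹ * i.1)⁻¹ * b t * (i.1⁻¹ * i.1) = b t := by group
    obtain ⟨hv, hD⟩ := hD
    rw [e] at hD
    refine ⟨by simp only [e], fun hz => hv.2 ?_⟩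
    rw [← dlg_inj (phi_pow hW.1.1 hD) hv.1 (sub_eq_zero.mp hz)]
    exact phi_spec hD
  · intro i j hij
    have hmin := hW.map hρ (i.1⁻¹ * j.1)
    obtain ⟨l, l', ζ, hζ, h1, h2⟩ := exists_test ρ α R hR h (x0 := W) hmin.1.1
      (beta_zero hq hρ hmin hA (scal_map hA hAW _) α h hh
        (hκ i.1 i.2 j.1 j.2 fun he => hij (Subtype.ext he))) h0
    obtain ⟨t, ht⟩ := hτ (l, l', ζ) (by simp [hζ])
    have hbt : b t = (h l')⁻¹ * h l := by simp only [b, ht]
    have hzt : z t = ζ := by simp only [z, ht]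
    have h3 := (sc_map ρ W _ _ _).mp h1
    rw [← hbt, ← hzt] at h3 h2
    refine ⟨t, ⟨⟨h3.pow_card hW.1.1, h2⟩, _, h3⟩, ?_⟩
    rw [(phi_spec ⟨_, h3⟩).unique hW.1.1 h3, sub_self]

theorem orbit_bound (hS : StmtStar) (q : ℕ) (hq : 0 < q) (δ : ℝ) (hδ : 0 < δ) :
    ∃ c : ℝ, 0 < c ∧ ∀ (G E : Type) [Group G] [Fintype G] [NormedAddCommGroup E]
      [InnerProductSpace ℂ E] [FiniteDimensional ℂ E] [DecidableEq (Submodule ℂ E)]
      (ρ : Representation ℂ G E), IsUni ρ →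
      ∀ (A : Subgroup G) (hA : A.Normal) (h : Fin q → G), (∀ l, h l ∈ up2 A hA) →
      ∀ (α : Fin q → ℂ) (W : Submodule ℂ E), MinGood ρ W → A ≤ scal ρ W →
      (∃ w ∈ W, ∑ i, α i • ρ (h i) w ≠ 0) → ∀ Y : Finset (Submodule ℂ E),
      Y ⊆ (univ.image fun g => W.map (ρ g)) →
      (∀ g, (∃ w ∈ W.map (ρ g), ∑ i, α i • ρ (h i) w ≠ 0) → W.map (ρ g) ∈ Y) →
      (univ.image fun g => W.map (ρ g)).card ≤
        Y.card * (2 * ⌈c * ((Nat.card G * Nat.card G : ℕ) : ℝ) ^ δ⌉₊) := by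
  classical
  obtain ⟨c, hc, H⟩ := kappa_bound hS q hq δ hδ
  refine ⟨c, hc, ?_⟩
  intro G E _ _ _ _ _ _ ρ hρ A hA h hh α W hW hAW h0 Y hYX hY
  have hφ : ∀ c a b : G, W.map (ρ a) = W.map (ρ b) → W.map (ρ (c * a)) = W.map (ρ (c * b)) := by
    intro c a b hab
    rw [← map_map_rep, hab, map_map_rep]
  obtain ⟨κ, hκ, hcard⟩ := pack (univ.filter fun g => W.map (ρ g) ∈ Y)
    (mem_filter.mpr ⟨mem_univ _, hY 1 (by rwa [map_one_rep])⟩)
  have h1 := H G E ρ hρ A hA h hh α W hW hAW h0 κ fun i hi j hj hij w hw => by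
    by_contra hne
    exact hκ i hi j hj hij (mem_filter.mpr ⟨mem_univ _, hY _ ⟨w, hw, hne⟩⟩)
  have h2 : κ.card ≤ ⌈c * ((Nat.card G * Nat.card G : ℕ) : ℝ) ^ δ⌉₊ := by
    exact_mod_cast h1.trans (Nat.le_ceil _)
  have h3 := fib (fun g => W.map (ρ g)) hφ Y hYX
  have h4 := fib (fun g => W.map (ρ g)) hφ _ (Subset.refl _)
  rw [filter_true_of_mem fun g _ => mem_image_of_mem _ (mem_univ g), card_univ] at h4
  rw [h3, h4] at hcard
  have hpos : 0 < (univ.filter fun g => W.map (ρ g) = W.map (ρ 1)).card :=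
    card_pos.mpr ⟨1, mem_filter.mpr ⟨mem_univ _, rfl⟩⟩
  refine Nat.le_of_mul_le_mul_right (hcard.trans ?_) hpos
  calc κ.card * (2 * (Y.card * (univ.filter fun g => W.map (ρ g) = W.map (ρ 1)).card))
      ≤ ⌈c * ((Nat.card G * Nat.card G : ℕ) : ℝ) ^ δ⌉₊ *
        (2 * (Y.card * (univ.filter fun g => W.map (ρ g) = W.map (ρ 1)).card)) :=
        Nat.mul_le_mul_right _ h2
    _ = _ := by ring

end Pool.Agent.Work.MP_11a08a_al.MV
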