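import Pool.Agent.Work.MP_11a08a_al.MV.Defs

/-!
A matrix over `ZMod M` with many zeros has a large rectangle killed by a bounded integer.
-/

set_option autoImplicit false

open Finset

namespace Pool.Agent.Work.MP_11a08a_al.MV

namespace Wild

variable {G κ : Type} [AddCommGroup G] [Finite G] [DecidableEq κ]

omit [Finite G] in
theorem exists_prime (C : AddSubgroup G) {x : G} (hx : x ∉ C) :
    ∃ p : ℕ, p.Prime ∧ ∀ n : ℤ, n • x ∈ C → (p : ℤ) ∣ n := by
  have h1 : addOrderOf (x : G ⧸ C) ≠ 1 := by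
    rw [Ne, AddMonoid.addOrderOf_eq_one_iff, QuotientAddGroup.eq_zero_iff]
    exact hx
  refine ⟨_, Nat.minFac_prime h1, fun n hn => ?_⟩
  refine (Int.natCast_dvd_natCast.2 (Nat.minFac_dvd _)).trans ?_
  rw [addOrderOf_dvd_iff_zsmul_eq_zero, ← QuotientAddGroup.mk_zsmul, QuotientAddGroup.eq_zero_iff]
  exact hn

theorem dvd_ordCompl_mul {N p q : ℕ} (hp : p.Prime) (hq : q.Prime) (h : p ≠ q) :
    N ∣ ordCompl[p] N * ordCompl[q] N := by
  have h1 : ordProj[p] N ∣ ordCompl[q] N := by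
    refine Nat.Coprime.dvd_of_dvd_mul_left (m := ordProj[q] N)
      (Nat.Coprime.pow _ _ ((Nat.coprime_primes hp hq).2 h)) ?_
    rw [Nat.ordProj_mul_ordCompl_eq_self]
    exact Nat.ordProj_dvd N p
  calc N = ordCompl[p] N * ordProj[p] N := by rw [mul_comm, Nat.ordProj_mul_ordCompl_eq_self]
    _ ∣ _ := Nat.mul_dvd_mul_left _ h1

theorem irredundant (R : AddSubgroup G) (y : κ → G) (L : ℕ) (B : Finset κ)
    (hy : ∀ b ∈ B, y b ∈ R)
    (h : ∀ b ∈ B, L.factorial • y b ∉
      AddSubgroup.closure ((fun b => L.factorial • y b) '' (B.erase b : Set κ))) :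
    L ^ B.card ≤ Nat.card R := by
  classical
  choose! p hp hpd using fun b hb => exists_prime _ (h b hb)
  set N := Nat.card R with hN
  have hN0 : N ≠ 0 := Nat.card_pos.ne'
  have hNy : ∀ b ∈ B, N • y b = 0 := fun b hb => by
    have := card_nsmul_eq_zero' (G := R) (x := ⟨y b, hy b hb⟩)
    exact congrArg Subtype.val this
  have key : ∀ D : κ → ℤ, (∀ b ∈ B, |D b| < L) →
      ∑ b ∈ B, D b • (ordCompl[p b] N) • y b = 0 → ∀ b ∈ B, D b = 0 := by
    intro D hD hs b₁ hb₁
    by_contra hne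
    set q := p b₁ with hq
    set S := B.filter fun b => p b = q with hS
    have hb₁S : b₁ ∈ S := mem_filter.2 ⟨hb₁, rfl⟩
    obtain ⟨E, hE, hE1⟩ := Finset.extract_gcd D ⟨b₁, hb₁S⟩
    have hg : S.gcd D ∣ (L.factorial : ℤ) := by
      have h1 : S.gcd D ∣ D b₁ := gcd_dvd hb₁S
      have h2 : (S.gcd D).natAbs ≤ (D b₁).natAbs :=
        Nat.le_of_dvd (Int.natAbs_pos.2 hne) (Int.natAbs_dvd_natAbs.2 h1)
      have h3 : (S.gcd D).natAbs ≠ 0 := fun h0 => hne (by
        rw [Int.natAbs_eq_zero] at h0; rw [h0] at h1; exact zero_dvd_iff.1 h1)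
      have h4 := hD b₁ hb₁
      rw [Int.abs_eq_natAbs] at h4
      rw [← Int.natAbs_dvd, Int.natCast_dvd_natCast]
      exact Nat.dvd_factorial (Nat.pos_of_ne_zero h3) (by omega)
    obtain ⟨r, hr⟩ := hg
    obtain ⟨b₀, hb₀, hq₀⟩ : ∃ b₀ ∈ S, ¬ (q : ℤ) ∣ E b₀ := by
      by_contra! hc
      have := dvd_gcd hc
      rw [hE1, Int.natCast_dvd_ofNat, Nat.dvd_one] at this
      exact (hp b₁ hb₁).ne_one this
    have hs' : ∑ b ∈ S, ((ordCompl[q] N : ℕ) ^ 2 * E b : ℤ) • L.factorial • y b = 0 := by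
      have := congrArg (fun z => ((ordCompl[q] N : ℕ) * r : ℤ) • z) hs
      simp only [smul_zero, smul_sum] at this
      rw [← this, hS, sum_filter]
      refine sum_congr rfl fun b hb => ?_
      split_ifs with hb'
      · rw [hE b (mem_filter.2 ⟨hb, hb'⟩), hb', ← natCast_zsmul, ← natCast_zsmul, hr, smul_smul,
          smul_smul, smul_smul]
        congr 1
        ring
      · obtain ⟨k, hk⟩ := dvd_ordCompl_mul (N := N) (hp b hb) (hp b₁ hb₁) hb'
        have h0 : ((ordCompl[p b] N * ordCompl[q] N : ℕ) : ℤ) • y b = 0 := by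
          rw [hk, natCast_zsmul, mul_comm, mul_smul, hNy b hb, smul_zero]
        rw [← natCast_zsmul, smul_smul, smul_smul]
        have : ((ordCompl[q] N : ℕ) * r : ℤ) * D b * (ordCompl[p b] N : ℕ) =
            r * D b * ((ordCompl[p b] N * ordCompl[q] N : ℕ) : ℤ) := by
          rw [Nat.cast_mul]; ring
        rw [this, mul_smul, h0, smul_zero]
    have hb₀B := (mem_filter.1 hb₀).1
    have hd := hpd b₀ hb₀B ((ordCompl[q] N : ℕ) ^ 2 * E b₀) (by
      rw [← add_sum_erase _ _ hb₀, add_eq_zero_iff_eq_neg] at hs'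
      rw [hs']
      refine neg_mem (sum_mem fun b hb => AddSubgroup.zsmul_mem _
        (AddSubgroup.subset_closure (Set.mem_image_of_mem _ ?_)) _)
      exact mem_coe.2 (mem_erase.2 ⟨(mem_erase.1 hb).1, (mem_filter.1 (mem_erase.1 hb).2).1⟩))
    rw [(mem_filter.1 hb₀).2] at hd
    have hqp : Prime (q : ℤ) := Nat.prime_iff_prime_int.1 (hp b₁ hb₁)
    rcases hqp.dvd_or_dvd hd with h1 | h1
    · exact Nat.not_dvd_ordCompl (hp b₁ hb₁) hN0
        (Int.natCast_dvd_natCast.1 (hqp.dvd_of_dvd_pow h1))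
    · exact hq₀ h1
  let Φ : (B → Fin L) → R := fun d =>
    ⟨∑ b : B, ((d b : ℕ) : ℤ) • (ordCompl[p b] N) • y b,
      sum_mem fun b _ => AddSubgroup.zsmul_mem _ (AddSubgroup.nsmul_mem _ (hy b b.2) _) _⟩
  have hΦ : Function.Injective Φ := by
    intro d d' e
    have e' := congrArg Subtype.val e
    simp only [Φ] at e'
    let D : κ → ℤ := fun b => if hb : b ∈ B then ((d ⟨b, hb⟩ : ℕ) : ℤ) - (d' ⟨b, hb⟩ : ℕ) else 0
    have := key D (fun b hb => by
      simp only [D, dif_pos hb]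
      have h1 := (d ⟨b, hb⟩).2
      have h2 := (d' ⟨b, hb⟩).2
      rw [abs_lt]; omega) (by
      rw [← sum_coe_sort]
      simp only [D, coe_mem, dif_pos, sub_smul, sum_sub_distrib, e', sub_self])
    ext b
    have h1 := this b b.2
    simp only [D, coe_mem, dif_pos, Subtype.coe_eta] at h1
    omega
  simpa using Nat.card_le_card_of_injective Φ hΦ

omit [Finite G] in
theorem exists_irredundant (x : κ → G) (T : Finset κ) : ∃ B ⊆ T,
    (∀ i ∈ T, x i ∈ AddSubgroup.closure (x '' B)) ∧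
    ∀ b ∈ B, x b ∉ AddSubgroup.closure (x '' (B.erase b : Set κ)) := by
  classical
  obtain ⟨B, hB, hmin⟩ := (T.powerset.filter fun B : Finset κ =>
    ∀ i ∈ T, x i ∈ AddSubgroup.closure (x '' B)).exists_min_image card
    ⟨T, mem_filter.2 ⟨mem_powerset_self T, fun i hi =>
      AddSubgroup.subset_closure (Set.mem_image_of_mem _ hi)⟩⟩
  obtain ⟨h1, h2⟩ := mem_filter.1 hB
  refine ⟨B, mem_powerset.1 h1, h2, fun b hb hx => ?_⟩
  have := hmin (B.erase b) (mem_filter.2 ⟨mem_powerset.2 ((erase_subset _ _).trans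
    (mem_powerset.1 h1)), fun i hi => ?_⟩)
  · have := card_erase_lt_of_mem hb
    omega
  · refine (AddSubgroup.closure_le _).2 ?_ (h2 i hi)
    rintro _ ⟨a, ha, rfl⟩
    by_cases e : a = b
    · exact e ▸ hx
    · exact AddSubgroup.subset_closure (Set.mem_image_of_mem _ (mem_coe.2 (mem_erase.2 ⟨e, ha⟩)))

omit [DecidableEq κ] in
theorem card_small (T : Finset κ) (d : ℕ) {l : ℝ} (h0 : 0 < l) (h1 : l ≤ 1) :
    ((T.powerset.filter fun B => B.card ≤ d).card : ℝ) * l ^ d ≤ (1 + l) ^ T.card := by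
  have h : (1 + l) ^ T.card = ∑ B ∈ T.powerset, l ^ B.card := by
    rw [← prod_const, prod_one_add]
    simp
  rw [h, ← nsmul_eq_mul, ← sum_const]
  calc _ ≤ ∑ B ∈ T.powerset.filter fun B => B.card ≤ d, l ^ B.card :=
        sum_le_sum fun B hB => pow_le_pow_of_le_one h0.le h1 (mem_filter.1 hB).2
    _ ≤ _ := sum_le_sum_of_subset_of_nonneg (filter_subset _ _) fun _ _ _ => by positivity

open Classical in
theorem card_traces (R : AddSubgroup G) (y : κ → G) {L : ℕ} (hL : 2 ≤ L) (T J : Finset κ)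
    (hy : ∀ b ∈ T, y b ∈ R) (K : κ → AddSubgroup G) :
    (J.image fun j => T.filter fun i => L.factorial • y i ∈ K j).card ≤
      (T.powerset.filter fun B => B.card ≤ Nat.log L (Nat.card R)).card := by
  refine le_trans (card_le_card ?_) (card_image_le (f := fun B : Finset κ => T.filter fun i =>
    L.factorial • y i ∈ AddSubgroup.closure ((fun b => L.factorial • y b) '' B)))
  intro S hS
  obtain ⟨j, -, rfl⟩ := mem_image.1 hS
  obtain ⟨B, hB, h1, h2⟩ := exists_irredundant (fun b => L.factorial • y b)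
    (T.filter fun i => L.factorial • y i ∈ K j)
  have hBT := hB.trans (filter_subset _ _)
  refine mem_image.2 ⟨B, mem_filter.2 ⟨mem_powerset.2 hBT, ?_⟩, ?_⟩
  · exact Nat.le_log_of_pow_le hL (irredundant R y L B (fun b hb => hy b (hBT hb)) h2)
  · ext i
    simp only [mem_filter, and_congr_right_iff]
    refine fun hi => ⟨fun h => (AddSubgroup.closure_le _).2 ?_ h, fun h =>
      h1 i (mem_filter.2 ⟨hi, h⟩)⟩
    rintro _ ⟨a, ha, rfl⟩
    exact (mem_filter.1 (hB ha)).2

theorem dc {α β : Type} (s : Finset α) (t : Finset β) (r : α → β → Prop)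
    [∀ a b, Decidable (r a b)] :
    ∑ a ∈ s, (t.filter fun b => r a b).card = ∑ b ∈ t, (s.filter fun a => r a b).card :=
  sum_card_bipartiteAbove_eq_sum_card_bipartiteBelow r

theorem hitting {β : Type} (I : Finset κ) (hI : I.Nonempty) (Q : Finset β) (A : β → Finset κ)
    {e : ℝ} (he : e ≤ 1) (hA : ∀ q ∈ Q, A q ⊆ I ∧ e * I.card ≤ (A q).card) (t : ℕ) :
    ∃ T ⊆ I, T.card ≤ t ∧
      ((Q.filter fun q => Disjoint T (A q)).card : ℝ) ≤ (1 - e) ^ t * Q.card := by
  induction t with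
  | zero => exact ⟨∅, empty_subset _, le_rfl, by simp⟩
  | succ t ih =>
    obtain ⟨T, hT, hc, h⟩ := ih
    set Q' := Q.filter fun q => Disjoint T (A q) with hQ'
    obtain ⟨i, hi, hle⟩ : ∃ i ∈ I, e * Q'.card ≤ (Q'.filter fun q => i ∈ A q).card := by
      refine exists_le_of_sum_le hI ?_
      have h1 : ∑ i ∈ I, (Q'.filter fun q => i ∈ A q).card = ∑ q ∈ Q', (A q).card := by
        rw [dc I Q' fun i q => i ∈ A q]
        refine sum_congr rfl fun q hq => congrArg card ?_
        ext i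
        simpa using fun h => (hA q (mem_filter.1 hq).1).1 h
      rw [← Nat.cast_sum, h1, Nat.cast_sum, sum_const, nsmul_eq_mul]
      calc _ = ∑ q ∈ Q', e * I.card := by rw [sum_const, nsmul_eq_mul]; ring
        _ ≤ _ := sum_le_sum fun q hq => (hA q (mem_filter.1 hq).1).2
    refine ⟨insert i T, insert_subset hi hT, (card_insert_le _ _).trans (by omega), ?_⟩
    have h2 : (Q.filter fun q => Disjoint (insert i T) (A q)) = Q'.filter fun q => i ∉ A q := by
      ext q
      simp only [hQ', mem_filter, disjoint_insert_left]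
      tauto
    have h3 := card_filter_add_card_filter_not (s := Q') fun q => i ∈ A q
    have h4 : ((Q'.filter fun q => i ∈ A q).card : ℝ) + (Q'.filter fun q => i ∉ A q).card =
      Q'.card := by exact_mod_cast h3
    rw [h2, pow_succ]
    nlinarith [mul_le_mul_of_nonneg_left h (sub_nonneg.2 he)]

omit [DecidableEq κ] in
theorem same_pairs {β : Type} [DecidableEq β] (J : Finset κ) (g : κ → β) :
    (J.card : ℝ) ^ 2 ≤ (J.image g).card * ((J ×ˢ J).filter fun x => g x.1 = g x.2).card := by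
  have h1 : ((J ×ˢ J).filter fun x => g x.1 = g x.2).card =
      ∑ b ∈ J.image g, (J.filter fun j => g j = b).card ^ 2 := by
    rw [card_eq_sum_card_fiberwise (f := fun x => g x.1) (t := J.image g) (fun x hx =>
      mem_image_of_mem _ (mem_product.1 (mem_filter.1 hx).1).1)]
    refine sum_congr rfl fun b _ => ?_
    rw [sq, ← card_product]
    congr 1
    ext x
    simp only [mem_filter, mem_product]
    constructor
    · rintro ⟨⟨h, h'⟩, h''⟩
      exact ⟨⟨h.1, h''⟩, h.2, h' ▸ h''⟩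
    · rintro ⟨⟨h, h'⟩, h₂, h₃⟩
      exact ⟨⟨⟨h, h₂⟩, h'.trans h₃.symm⟩, h'⟩
  rw [h1, card_eq_sum_card_image g J]
  exact_mod_cast sq_sum_le_card_mul_sum_sq

omit [DecidableEq κ] in
open Classical in
theorem greedy (R : AddSubgroup G) (x : κ → G) (K : κ → AddSubgroup G) (I : Finset κ)
    (hx : ∀ i ∈ I, x i ∈ R) {e : ℝ} (h0 : 0 ≤ e) (h1 : 2 * e ≤ 1) (k : ℕ) :
    ∀ (S : AddSubgroup G) (J : Finset κ), S ≤ R → Nat.card R < 2 ^ (k + 1) * Nat.card S →
      (∀ j ∈ J, S ≤ K j ∧ ((I.filter fun i => x i ∉ K j).card : ℝ) ≤ e * I.card) →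
      ∃ I₁ ⊆ I, ∃ J₁ ⊆ J, I.card ≤ 2 * I₁.card ∧ (1 - 2 * e) ^ k * J.card ≤ J₁.card ∧
        ∀ i ∈ I₁, ∀ j ∈ J₁, x i ∈ K j := by
  have grow : ∀ S : AddSubgroup G, ∀ a ∉ S,
      2 * Nat.card S ≤ Nat.card (S ⊔ AddSubgroup.zmultiples a : AddSubgroup G) := by
    intro S a ha
    obtain ⟨c, hc⟩ := AddSubgroup.card_dvd_of_le (le_sup_left : S ≤ S ⊔ AddSubgroup.zmultiples a)
    have hpos : 0 < Nat.card (S ⊔ AddSubgroup.zmultiples a : AddSubgroup G) := Nat.card_pos
    by_contra! hlt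
    have hc1 : c = 1 := by
      rw [hc] at hlt hpos
      rcases c with _ | _ | c
      · simp at hpos
      · rfl
      · nlinarith
    have := AddSubgroup.eq_of_le_of_card_ge
      (le_sup_left : S ≤ S ⊔ AddSubgroup.zmultiples a) (by rw [hc, hc1, mul_one])
    exact ha (this ▸ AddSubgroup.mem_sup_right (AddSubgroup.mem_zmultiples a))
  have hsup : ∀ {S S' : AddSubgroup G} {a : G}, S ≤ S' → a ∈ S' →
      S ⊔ AddSubgroup.zmultiples a ≤ S' := fun h ha =>
    sup_le h (AddSubgroup.zmultiples_le_of_mem ha)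
  induction k with
  | zero =>
    intro S J hS hc hJ
    refine ⟨I, Subset.rfl, J, Subset.rfl, by omega, by simp, fun i hi j hj => (hJ j hj).1 ?_⟩
    by_contra hn
    have h2 := grow S _ hn
    have h3 := AddSubgroup.card_le_of_le (hsup hS (hx i hi))
    omega
  | succ k ih =>
    intro S J hS hc hJ
    have hp : 0 ≤ 1 - 2 * e := sub_nonneg.2 h1
    by_cases hhalf : I.card ≤ 2 * (I.filter fun i => x i ∈ S).card
    · refine ⟨_, filter_subset _ _, J, Subset.rfl, hhalf, ?_,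
        fun i hi j hj => (hJ j hj).1 (mem_filter.1 hi).2⟩
      exact mul_le_of_le_one_left (Nat.cast_nonneg _) (pow_le_one₀ hp (by linarith))
    set U := I.filter fun i => x i ∉ S with hU
    have h2 := card_filter_add_card_filter_not (s := I) fun i => x i ∈ S
    have h3 : I.card < 2 * U.card := by rw [hU]; omega
    obtain ⟨i, hi, hle⟩ : ∃ i ∈ U,
        ((J.filter fun j => x i ∉ K j).card : ℝ) ≤ 2 * e * J.card := by
      refine exists_le_of_sum_le (card_pos.1 (by omega)) ?_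
      rw [← Nat.cast_sum, dc U J fun i j => x i ∉ K j, Nat.cast_sum, sum_const, nsmul_eq_mul]
      have h4 : (I.card : ℝ) ≤ 2 * U.card := by exact_mod_cast h3.le
      calc _ ≤ ∑ j ∈ J, e * I.card := sum_le_sum fun j hj => le_trans (Nat.cast_le.2
            (card_le_card (filter_subset_filter _ (filter_subset _ _)))) (hJ j hj).2
        _ = e * J.card * I.card := by rw [sum_const, nsmul_eq_mul]; ring
        _ ≤ e * J.card * (2 * U.card) := by gcongr
        _ = _ := by ring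
    obtain ⟨hiI, hiS⟩ := mem_filter.1 hi
    obtain ⟨I₁, hI₁, J₁, hJ₁, q₁, q₂, q₃⟩ := ih (S ⊔ AddSubgroup.zmultiples (x i))
      (J.filter fun j => x i ∈ K j) (hsup hS (hx i hiI))
      (hc.trans_le (by rw [pow_succ, mul_assoc]; exact Nat.mul_le_mul_left _ (grow S _ hiS)))
      fun j hj => ⟨hsup (hJ j (mem_filter.1 hj).1).1 (mem_filter.1 hj).2,
        (hJ j (mem_filter.1 hj).1).2⟩
    refine ⟨I₁, hI₁, J₁, hJ₁.trans (filter_subset _ _), q₁, le_trans ?_ q₂, q₃⟩
    have h5 : ((J.filter fun j => x i ∈ K j).card : ℝ) + (J.filter fun j => x i ∉ K j).card =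
      J.card := by exact_mod_cast card_filter_add_card_filter_not (s := J) fun j => x i ∈ K j
    rw [pow_succ, mul_assoc]
    exact mul_le_mul_of_nonneg_left (by linarith) (pow_nonneg hp _)

open Classical in
theorem near (R : AddSubgroup G) (y : κ → G) {L : ℕ} (hL : 2 ≤ L) (K : κ → AddSubgroup G)
    (I J : Finset κ) (hI : I.Nonempty) (hJ : J.Nonempty) (hy : ∀ i ∈ I, y i ∈ R) {e : ℝ}
    (h0 : 0 < e) (h1 : e ≤ 1) {u : ℕ} (hu : (1 - e / 2) ^ u ≤ e / 4) :
    ∃ j₀ ∈ J, ∃ J' ⊆ J, (J.card : ℝ) ≤ 2 * (2 ^ u) ^ (Nat.log L (Nat.card R) + 1) * J'.card ∧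
      ∀ j ∈ J', (((I.filter fun i => L.factorial • y i ∈ K j₀).filter fun i =>
        L.factorial • y i ∉ K j).card : ℝ) ≤ e * I.card := by
  set d := Nat.log L (Nat.card R) with hd
  set A : κ × κ → Finset κ := fun q => (I.filter fun i => L.factorial • y i ∈ K q.1).filter
    fun i => L.factorial • y i ∉ K q.2 with hA
  suffices h : ∃ j₀ ∈ J, (J.card : ℝ) ≤ 2 * (2 ^ u) ^ (d + 1) *
      (J.filter fun j => ((A (j₀, j)).card : ℝ) ≤ e * I.card).card by
    obtain ⟨j₀, hj₀, h⟩ := h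
    exact ⟨j₀, hj₀, _, filter_subset _ _, h, fun j hj => (mem_filter.1 hj).2⟩
  set Q := (J ×ˢ J).filter fun q => e * I.card ≤ (A q).card with hQ
  obtain ⟨T, hT, hTc, hTQ⟩ := hitting I hI Q A h1
    (fun q hq => ⟨(filter_subset _ _).trans (filter_subset _ _), (mem_filter.1 hq).2⟩) (u * (d + 1))
  set tr : κ → Finset κ := fun j => T.filter fun i => L.factorial • y i ∈ K j with htr
  set N : ℝ := ((J.image tr).card : ℝ) with hN
  have hN0 : 0 ≤ N := Nat.cast_nonneg _
  have hN1 : N ≤ (2 ^ u) ^ (d + 1) := by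
    have : (J.image tr).card ≤ 2 ^ (u * (d + 1)) := by
      refine (card_le_card (t := T.powerset) fun S hS => ?_).trans ?_
      · obtain ⟨j, -, rfl⟩ := mem_image.1 hS
        exact mem_powerset.2 (filter_subset _ _)
      · rw [card_powerset]
        exact Nat.pow_le_pow_right two_pos hTc
    rw [← pow_mul, hN]
    exact_mod_cast this
  have hN2 : N * (1 - e) ^ (u * (d + 1)) ≤ 1 / 2 := by
    have h2 : N * (e / 2) ^ d ≤ (1 + e / 2) ^ (u * (d + 1)) := by
      refine le_trans ?_ ((card_small T d (half_pos h0) (by linarith)).trans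
        (pow_le_pow_right₀ (by linarith) hTc))
      gcongr
      exact Nat.cast_le.2 (card_traces R y hL T J (fun b hb => hy b (hT hb)) K)
    have hp : 0 ≤ 1 - e := sub_nonneg.2 h1
    refine le_of_mul_le_mul_right ?_ (pow_pos (half_pos h0) d)
    calc _ = N * (e / 2) ^ d * (1 - e) ^ (u * (d + 1)) := by ring
      _ ≤ (1 + e / 2) ^ (u * (d + 1)) * (1 - e) ^ (u * (d + 1)) := by gcongr
      _ ≤ (1 - e / 2) ^ (u * (d + 1)) := by
        rw [← mul_pow]
        exact pow_le_pow_left₀ (by positivity) (by nlinarith) _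
      _ ≤ (e / 4) ^ (d + 1) := by
        rw [pow_mul]
        exact pow_le_pow_left₀ (pow_nonneg (by linarith) _) hu _
      _ = e / 4 * (e / 4) ^ d := by ring
      _ ≤ _ := by gcongr <;> linarith
  have h3 := same_pairs J tr
  have h4 : ((J ×ˢ J).filter fun x => tr x.1 = tr x.2).card ≤
      (Q.filter fun q => Disjoint T (A q)).card +
        ∑ j₀ ∈ J, (J.filter fun j => ((A (j₀, j)).card : ℝ) ≤ e * I.card).card := by
    have : ∑ j₀ ∈ J, (J.filter fun j => ((A (j₀, j)).card : ℝ) ≤ e * I.card).card =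
        ((J ×ˢ J).filter fun q => ((A q).card : ℝ) ≤ e * I.card).card := by
      simp only [card_filter, sum_product]
    rw [this]
    refine le_trans (card_le_card fun q hq => ?_) (card_union_le _ _)
    obtain ⟨hq1, hq2⟩ := mem_filter.1 hq
    rw [mem_union, mem_filter, mem_filter, mem_filter]
    rcases le_total (e * I.card) (A q).card with h | h
    · refine Or.inl ⟨⟨hq1, h⟩, disjoint_left.2 fun i hi hi' => ?_⟩
      obtain ⟨a, b⟩ := mem_filter.1 hi'
      have : i ∈ tr q.2 := hq2 ▸ mem_filter.2 ⟨hi, (mem_filter.1 a).2⟩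
      exact b (mem_filter.1 this).2
    · exact Or.inr ⟨hq1, h⟩
  have h5 : (Q.card : ℝ) ≤ J.card ^ 2 := by
    have := card_le_card (filter_subset (fun q => e * I.card ≤ (A q).card) (J ×ˢ J))
    rw [card_product, ← sq] at this
    exact_mod_cast this
  refine exists_le_of_sum_le hJ ?_
  rw [sum_const, nsmul_eq_mul, ← sq, ← mul_sum, ← Nat.cast_sum]
  have h6 := (Nat.cast_le (α := ℝ)).2 h4
  rw [Nat.cast_add] at h6
  set S : ℝ := ((∑ j₀ ∈ J, (J.filter fun j =>
    ((A (j₀, j)).card : ℝ) ≤ e * I.card).card : ℕ) : ℝ) with hS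
  have hS0 : 0 ≤ S := Nat.cast_nonneg _
  have h7 : (J.card : ℝ) ^ 2 ≤ N * ((1 - e) ^ (u * (d + 1)) * J.card ^ 2 + S) := by
    refine h3.trans (mul_le_mul_of_nonneg_left (h6.trans (add_le_add_left (hTQ.trans ?_) _)) hN0)
    exact mul_le_mul_of_nonneg_left h5 (pow_nonneg (sub_nonneg.2 h1) _)
  have h8 := mul_le_mul_of_nonneg_right hN2 (sq_nonneg (J.card : ℝ))
  have h9 := mul_le_mul_of_nonneg_right hN1 hS0
  nlinarith

omit [DecidableEq κ] in
theorem heavy (I J : Finset κ) (hI : I.Nonempty) (r : κ → κ → Prop) [∀ i j, Decidable (r i j)]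
    {η : ℝ} (hη : 0 ≤ η) (h : η * I.card * J.card ≤ ((I ×ˢ J).filter fun x => r x.1 x.2).card) :
    η * J.card ≤ 2 * (J.filter fun j => η * I.card ≤ 2 * (I.filter fun i => r i j).card).card := by
  have h1 : ((I ×ˢ J).filter fun x => r x.1 x.2).card = ∑ j ∈ J, (I.filter fun i => r i j).card := by
    simp only [card_filter, sum_product_right]
  have hI' : (0 : ℝ) < I.card := by exact_mod_cast hI.card_pos
  have h2 : ∑ j ∈ J, (2 * (I.filter fun i => r i j).card : ℝ) ≤ ∑ j ∈ J, (η * I.card +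
      if η * I.card ≤ 2 * (I.filter fun i => r i j).card then (2 * I.card : ℝ) else 0) := by
    refine sum_le_sum fun j _ => ?_
    split_ifs with hc
    · have : ((I.filter fun i => r i j).card : ℝ) ≤ I.card := Nat.cast_le.2 (card_filter_le _ _)
      nlinarith
    · linarith [not_le.1 hc]
  rw [← mul_sum, ← Nat.cast_sum, ← h1, sum_add_distrib, ← sum_filter, sum_const, sum_const,
    nsmul_eq_mul, nsmul_eq_mul] at h2
  refine le_of_mul_le_mul_right ?_ hI'
  nlinarith

end Wild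

open Wild in
theorem wild : StmtW := by
  classical
  intro m η δ hm hη hδ
  obtain ⟨e', he0, he1, he2⟩ : ∃ e' : ℝ, 0 < e' ∧ 2 * e' ≤ 1 ∧
      (1 - 2 * e') * 2 ^ (δ / 2) = 1 := by
    have h1 : (1 : ℝ) < 2 ^ (δ / 2) := Real.one_lt_rpow one_lt_two (half_pos hδ)
    have h2 := inv_lt_one_of_one_lt₀ h1
    have h3 : (0 : ℝ) < (2 ^ (δ / 2))⁻¹ := by positivity
    refine ⟨(1 - (2 ^ (δ / 2))⁻¹) / 2, by linarith, by linarith, ?_⟩
    field_simp
    ring
  set e := min (e' * η / 2) 1 with he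
  have h0 : 0 < e := lt_min (by positivity) one_pos
  have h1 : e ≤ 1 := min_le_right _ _
  obtain ⟨u, hu⟩ := exists_pow_lt_of_lt_one (by positivity : 0 < e / 4)
    (by linarith : 1 - e / 2 < 1)
  obtain ⟨L, hL2, hLm, hLu⟩ : ∃ L : ℕ, 2 ≤ L ∧ m ≤ L ∧ (2 : ℝ) ^ u ≤ (L : ℝ) ^ (δ / 2) :=
    (((Filter.eventually_ge_atTop 2).and (Filter.eventually_ge_atTop m)).and
      (((tendsto_rpow_atTop (half_pos hδ)).comp tendsto_natCast_atTop_atTop).eventually_ge_atTop
        _)).exists.imp fun L h => ⟨h.1.1, h.1.2, h.2⟩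
  refine ⟨L.factorial, η / (4 * 2 ^ u), L.factorial_pos, Nat.dvd_factorial hm hLm, by positivity,
    fun κ _ _ M _ f I J hI hJ h => ?_⟩
  obtain ⟨K, hKm⟩ : ∃ K : κ → AddSubgroup (κ → ZMod M),
      ∀ i, ∀ j ∈ J, L.factorial • row f J i ∈ K j ↔ L.factorial • f i j = 0 :=
    ⟨fun j => (Pi.evalAddMonoidHom (fun _ => ZMod M) j).ker, fun i j hj => by
      simp [AddMonoidHom.mem_ker, row, hj]⟩
  have hy : ∀ i ∈ I, row f J i ∈ rowG f I J := fun i hi =>
    AddSubgroup.subset_closure (Set.mem_image_of_mem _ hi)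
  have hI' : (0 : ℝ) < I.card := by exact_mod_cast hI.card_pos
  have hJ' : (0 : ℝ) < J.card := by exact_mod_cast hJ.card_pos
  have hs1 : 1 ≤ sz f I J := Nat.card_pos
  have hs : (1 : ℝ) ≤ sz f I J := by exact_mod_cast hs1
  have hH := heavy I J hI (fun i j => L.factorial • row f J i ∈ K j) hη.le (h.trans
    (Nat.cast_le.2 (card_le_card fun x hx => by
      obtain ⟨a, b⟩ := mem_filter.1 hx
      exact mem_filter.2 ⟨a, (hKm _ _ (mem_product.1 a).2).2 (by rw [b, smul_zero])⟩)))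
  set J₀ := J.filter fun j => η * I.card ≤
    2 * (I.filter fun i => L.factorial • row f J i ∈ K j).card with hJ₀
  have hJ₀n : J₀.Nonempty := by
    rw [← card_pos, ← Nat.cast_pos (α := ℝ)]
    nlinarith [mul_pos hη hJ']
  obtain ⟨j₀, hj₀, J', hJJ, hn, hnear⟩ := near (rowG f I J) (row f J) hL2 K I J₀ hI hJ₀n hy h0 h1 hu.le
  have hI₀ := (mem_filter.1 hj₀).2
  set I₀ := I.filter fun i => L.factorial • row f J i ∈ K j₀ with hI₀d
  obtain ⟨I₁, hI₁, J₁, hJ₁, q₁, q₂, q₃⟩ := greedy (rowG f I J) (fun i => L.factorial • row f J i)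
    K I₀ (fun i hi => AddSubgroup.nsmul_mem _ (hy i (mem_filter.1 hi).1) _) he0.le he1
    (Nat.log 2 (sz f I J)) ⊥ J' bot_le (by simpa [sz] using Nat.lt_pow_succ_log_self one_lt_two (sz f I J))
    fun j hj => ⟨bot_le, by
      refine (hnear j hj).trans ?_
      calc e * I.card ≤ e' * η / 2 * I.card := by gcongr; exact min_le_left _ _
        _ = e' / 2 * (η * I.card) := by ring
        _ ≤ e' / 2 * (2 * I₀.card) := by gcongr
        _ = _ := by ring⟩
  have hsub : J₁ ⊆ J := hJ₁.trans (hJJ.trans (filter_subset _ _))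
  have hu1 : (1 : ℝ) ≤ 2 ^ u := one_le_pow₀ one_le_two
  have hpow : ∀ b : ℕ, 2 ≤ b →
      ((b : ℝ) ^ (δ / 2)) ^ Nat.log b (sz f I J) ≤ (sz f I J : ℝ) ^ (δ / 2) := by
    intro b _
    rw [Real.rpow_pow_comm (Nat.cast_nonneg _)]
    refine Real.rpow_le_rpow (by positivity) ?_ (half_pos hδ).le
    exact_mod_cast Nat.pow_log_le_self b (by omega)
  refine ⟨I₁, hI₁.trans (filter_subset _ _), J₁, hsub, ?_, ?_,
    fun i hi j hj => (hKm i j (hsub hj)).1 (q₃ i hi j hj)⟩
  · have a : (I₀.card : ℝ) ≤ 2 * I₁.card := by exact_mod_cast q₁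
    have b : (1 : ℝ) ≤ (sz f I J : ℝ) ^ δ := Real.one_le_rpow hs hδ.le
    have c : η / (4 * 2 ^ u) ≤ η / 4 := by gcongr; linarith
    calc _ ≤ η / 4 * I.card := by gcongr
      _ ≤ 1 * I₁.card := by linarith
      _ ≤ _ := by gcongr
  · set X : ℝ := (sz f I J : ℝ) ^ (δ / 2) with hX
    have hXX : (sz f I J : ℝ) ^ δ = X * X := by
      rw [hX, ← Real.rpow_add (by linarith), add_halves]
    set n : ℝ := (J'.card : ℝ) with hn'
    have hn0 : 0 ≤ n := Nat.cast_nonneg _
    have a : ((2 : ℝ) ^ u) ^ Nat.log L (sz f I J) ≤ X :=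
      (pow_le_pow_left₀ (by positivity) hLu _).trans (hpow L hL2)
    have b : n ≤ X * J₁.card := by
      have c := hpow 2 le_rfl
      calc n = (((2 : ℕ) : ℝ) ^ (δ / 2)) ^ Nat.log 2 (sz f I J) *
            ((1 - 2 * e') ^ Nat.log 2 (sz f I J) * n) := by
            rw [← mul_assoc, ← mul_pow, Nat.cast_ofNat, mul_comm _ (1 - 2 * e'), he2, one_pow,
              one_mul]
        _ ≤ _ := mul_le_mul c q₂ (mul_nonneg (pow_nonneg (by linarith) _) hn0) (by positivity)
    have hX0 : 0 ≤ X := by positivity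
    rw [div_mul_eq_mul_div, div_le_iff₀ (by positivity), hXX]
    calc η * J.card ≤ 2 * (2 * (2 ^ u) ^ (Nat.log L (sz f I J) + 1) * n) :=
          hH.trans (mul_le_mul_of_nonneg_left hn two_pos.le)
      _ = 4 * 2 ^ u * ((2 ^ u) ^ Nat.log L (sz f I J) * n) := by ring
      _ ≤ 4 * 2 ^ u * (X * (X * J₁.card)) :=
          mul_le_mul_of_nonneg_left (mul_le_mul a b hn0 hX0) (by positivity)
      _ = _ := by ring

end Pool.Agent.Work.MP_11a08a_al.MV
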